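import Pool.Agent.W_28d874_h30.Defs

namespace Pool.Agent.W_28d874_h30

open Metric Set Filter Topology

variable {d : ℕ}

/-- The set of admissible kissing configurations cardinalities is bounded. -/
lemma newton_bddAbove : BddAbove {k : ℕ | ∃ S : Finset (E d), S.card = k ∧ (∀ x ∈ S, Touch 0 x) ∧
    IsPacking (insert (0 : E d) (S : Set (E d)))} := by
  refine ⟨⌈((2 : ℝ) + 1) ^ d⌉₊, ?_⟩
  rintro k ⟨S, rfl, hS, hP⟩
  have h1 : IsPacking (S : Set (E d)) := hP.mono (Set.subset_insert _ _)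
  have h2 := card_le_pow h1 (p := 0) (R := 2) (by norm_num) (fun x hx => by
    have := (touch_iff.1 (hS x hx)).2
    rwa [dist_comm] at this)
  exact_mod_cast h2.trans (Nat.le_ceil _)

lemma newton_mem : newton d ∈ {k : ℕ | ∃ S : Finset (E d), S.card = k ∧ (∀ x ∈ S, Touch 0 x) ∧
    IsPacking (insert (0 : E d) (S : Set (E d)))} := by
  apply Nat.sSup_mem
  · exact ⟨0, ∅, rfl, by simp, by simp [IsPacking]⟩
  · exact newton_bddAbove

/-- `y` has at least `m` `ε`-neighbours in `P`. -/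
def HasNear (P : Set (E d)) (y : E d) (ε : ℝ) (m : ℕ) : Prop :=
  ∃ v : Fin m → E d, Function.Injective v ∧ ∀ i, v i ∈ P ∧ v i ≠ y ∧ dist y (v i) ≤ 2 + ε

/-- No ball of a packing touches more than `newton d` others. -/
lemma HasNear.le_newton {P : Set (E d)} (hP : IsPacking P) {x : E d} (hx : x ∈ P) {m : ℕ}
    (h : HasNear P x 0 m) : m ≤ newton d := by
  classical
  obtain ⟨v, hv, h⟩ := h
  apply le_csSup newton_bddAbove
  refine ⟨Finset.univ.image (fun i => v i - x), ?_, ?_, ?_⟩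
  · rw [Finset.card_image_of_injective]
    · simp
    · intro i j hij
      exact hv (sub_left_injective hij)
  · intro z hz
    obtain ⟨i, _, rfl⟩ := Finset.mem_image.1 hz
    rw [touch_iff]
    obtain ⟨h1, h2, h3⟩ := h i
    refine ⟨fun h0 => h2 (sub_eq_zero.1 h0.symm), ?_⟩
    rw [dist_comm] at h3
    rw [dist_zero_left, ← dist_eq_norm]
    linarith
  · rw [isPacking_iff] at hP ⊢
    have key : ∀ z ∈ insert (0 : E d) (↑(Finset.univ.image (fun i => v i - x)) : Set (E d)),
        z + x ∈ P := by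
      intro z hz
      rcases hz with rfl | hz
      · simpa using hx
      · obtain ⟨i, _, rfl⟩ := Finset.mem_image.1 (Finset.mem_coe.1 hz)
        simpa using (h i).1
    intro a ha b hb hab
    have := hP _ (key a ha) _ (key b hb) (fun h => hab (add_left_injective x h))
    simpa using this

lemma HasNear.mono {P : Set (E d)} {y : E d} {ε ε' : ℝ} {m m' : ℕ} (h : HasNear P y ε m)
    (hε : ε ≤ ε') (hm : m' ≤ m) : HasNear P y ε' m' := by
  obtain ⟨v, hv, h⟩ := h
  refine ⟨fun i => v (Fin.castLE hm i), fun i j hij => Fin.castLE_injective hm (hv hij), ?_⟩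
  intro i
  exact ⟨(h _).1, (h _).2.1, (h _).2.2.trans (by linarith)⟩

/-- Limit of a sequence of sets along the hyperfilter. -/
def limSet (P : ℕ → Set (E d)) : Set (E d) :=
  {x | ∃ y : ℕ → E d, (∀ k, y k ∈ P k) ∧ Tendsto y (hyperfilter ℕ : Filter ℕ) (𝓝 x)}

lemma limSet_packing {P : ℕ → Set (E d)} (hP : ∀ k, IsPacking (P k)) : IsPacking (limSet P) := by
  rw [isPacking_iff]
  rintro x ⟨y, hy, hyx⟩ x' ⟨y', hy', hyx'⟩ hne
  have ht : Tendsto (fun k => dist (y k) (y' k)) (hyperfilter ℕ : Filter ℕ) (𝓝 (dist x x')) :=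
    hyx.dist hyx'
  have hpos : 0 < dist x x' := dist_pos.2 hne
  have hev : ∀ᶠ k in (hyperfilter ℕ : Filter ℕ), 2 ≤ dist (y k) (y' k) := by
    filter_upwards [ht.eventually (lt_mem_nhds hpos)] with k hk
    exact isPacking_iff.1 (hP k) _ (hy k) _ (hy' k) (dist_pos.1 hk)
  exact ge_of_tendsto ht hev

lemma tendsto_inv_hyper : Tendsto (fun k : ℕ => (2 : ℝ) + 1 / ((k : ℝ) + 1))
    (hyperfilter ℕ : Filter ℕ) (𝓝 2) := by
  have h1 : Tendsto (fun k : ℕ => (2 : ℝ) + 1 / ((k : ℝ) + 1)) atTop (𝓝 (2 + 0)) :=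
    tendsto_const_nhds.add tendsto_one_div_add_atTop_nhds_zero_nat
  rw [add_zero] at h1
  refine h1.mono_left ?_
  rw [← Nat.cofinite_eq_atTop]
  exact hyperfilter_le_cofinite

/-- Limits of near neighbours are touching neighbours. -/
lemma hasNear_limSet {P : ℕ → Set (E d)} (hP : ∀ k, IsPacking (P k)) {x : E d} {y : ℕ → E d}
    (hy : ∀ k, y k ∈ P k) (hyx : Tendsto y (hyperfilter ℕ : Filter ℕ) (𝓝 x)) {m : ℕ}
    (h : ∀ᶠ k in (hyperfilter ℕ : Filter ℕ), HasNear (P k) (y k) (1 / ((k : ℝ) + 1)) m) :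
    HasNear (limSet P) x 0 m := by
  classical
  -- choose the neighbours
  have hch : ∀ k, ∃ v : Fin m → E d, (∀ i, v i ∈ P k) ∧
      (HasNear (P k) (y k) (1 / ((k : ℝ) + 1)) m → Function.Injective v ∧
        ∀ i, v i ≠ y k ∧ dist (y k) (v i) ≤ 2 + 1 / ((k : ℝ) + 1)) := by
    intro k
    by_cases hk : HasNear (P k) (y k) (1 / ((k : ℝ) + 1)) m
    · obtain ⟨v, hv, hv2⟩ := hk
      exact ⟨v, fun i => (hv2 i).1, fun _ => ⟨hv, fun i => (hv2 i).2⟩⟩
    · exact ⟨fun _ => y k, fun _ => hy k, fun hk' => absurd hk' hk⟩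
  choose v hv1 hv2 using hch
  have hbd : ∀ i, ∀ᶠ k in (hyperfilter ℕ : Filter ℕ), v k i ∈ closedBall x 4 := by
    intro i
    filter_upwards [h, hyx.eventually (ball_mem_nhds x one_pos)] with k hk hk2
    have h3 := ((hv2 k hk).2 i).2
    have h4 : (1 : ℝ) / ((k : ℝ) + 1) ≤ 1 := by
      rw [div_le_one (by positivity)]; linarith [Nat.cast_nonneg (α := ℝ) k]
    rw [mem_closedBall, dist_comm]
    have hk3 : dist x (y k) < 1 := by rw [dist_comm]; exact hk2
    linarith [dist_triangle x (y k) (v k i)]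
  have hlim : ∀ i, ∃ w, Tendsto (fun k => v k i) (hyperfilter ℕ : Filter ℕ) (𝓝 w) := by
    intro i
    have hc : IsCompact (closedBall x 4) := isCompact_closedBall x 4
    have hle : (((hyperfilter ℕ).map (fun k => v k i) : Ultrafilter (E d)) : Filter (E d)) ≤
        𝓟 (closedBall x 4) := by
      rw [le_principal_iff]
      exact hbd i
    obtain ⟨w, _, hw⟩ := hc.ultrafilter_le_nhds _ hle
    exact ⟨w, hw⟩
  choose w hw using hlim
  have hwmem : ∀ i, w i ∈ limSet P := fun i => ⟨fun k => v k i, fun k => hv1 k i, hw i⟩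
  have hne : ∀ i, w i ≠ x := by
    intro i hi
    have ht : Tendsto (fun k => dist (y k) (v k i)) (hyperfilter ℕ : Filter ℕ)
        (𝓝 (dist x (w i))) := hyx.dist (hw i)
    have hev : ∀ᶠ k in (hyperfilter ℕ : Filter ℕ), 2 ≤ dist (y k) (v k i) := by
      filter_upwards [h] with k hk
      exact isPacking_iff.1 (hP k) _ (hy k) _ (hv1 k i) ((hv2 k hk).2 i).1.symm
    have := ge_of_tendsto ht hev
    rw [hi, dist_self] at this
    linarith
  refine ⟨w, ?_, fun i => ⟨hwmem i, hne i, ?_⟩⟩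
  · intro i j hij
    by_contra hij'
    have ht : Tendsto (fun k => dist (v k i) (v k j)) (hyperfilter ℕ : Filter ℕ)
        (𝓝 (dist (w i) (w j))) := (hw i).dist (hw j)
    have hev : ∀ᶠ k in (hyperfilter ℕ : Filter ℕ), 2 ≤ dist (v k i) (v k j) := by
      filter_upwards [h] with k hk
      exact isPacking_iff.1 (hP k) _ (hv1 k i) _ (hv1 k j) (fun h => hij' ((hv2 k hk).1 h))
    have := ge_of_tendsto ht hev
    rw [hij, dist_self] at this
    linarith
  · have ht : Tendsto (fun k => dist (y k) (v k i)) (hyperfilter ℕ : Filter ℕ)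
        (𝓝 (dist x (w i))) := hyx.dist (hw i)
    rw [add_zero]
    refine le_of_tendsto_of_tendsto ht tendsto_inv_hyper ?_
    filter_upwards [h] with k hk
    exact ((hv2 k hk).2 i).2

lemma isPacking_translate {P : Set (E d)} (hP : IsPacking P) (x : E d) :
    IsPacking ((fun z => z - x) '' P) := by
  rw [isPacking_iff] at hP ⊢
  rintro _ ⟨a, ha, rfl⟩ _ ⟨b, hb, rfl⟩ hab
  have := hP a ha b hb (fun h => hab (by rw [h]))
  simpa using this

lemma HasNear.translate {P : Set (E d)} {y : E d} {ε : ℝ} {m : ℕ} (h : HasNear P y ε m)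
    (x : E d) : HasNear ((fun z => z - x) '' P) (y - x) ε m := by
  obtain ⟨v, hv, h⟩ := h
  refine ⟨fun i => v i - x, fun i j hij => hv (sub_left_injective hij), fun i => ?_⟩
  obtain ⟨h1, h2, h3⟩ := h i
  refine ⟨⟨v i, h1, rfl⟩, fun h0 => h2 (sub_left_injective h0), ?_⟩
  simpa using h3

/-- For small `ε` no ball of a packing has more than `newton d` `ε`-neighbours. -/
lemma exists_eps_le_newton : ∃ k : ℕ, ∀ P : Set (E d), IsPacking P → ∀ x ∈ P,
    ¬ HasNear P x (1 / ((k : ℝ) + 1)) (newton d + 1) := by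
  by_contra hcon
  push Not at hcon
  choose P hP x hx hN using hcon
  have h1 := hasNear_limSet (P := fun k => (fun z => z - x k) '' P k)
    (fun k => isPacking_translate (hP k) (x k)) (x := 0) (y := fun _ => 0) (fun k =>
      ⟨x k, hx k, sub_self _⟩) tendsto_const_nhds (m := newton d + 1)
    (Eventually.of_forall fun k => by
      have := (hN k).translate (x k)
      rwa [sub_self] at this)
  have h2 := h1.le_newton (limSet_packing fun k => isPacking_translate (hP k) (x k))
    ⟨fun _ => 0, fun k => ⟨x k, hx k, sub_self _⟩, tendsto_const_nhds⟩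
  omega

lemma hasNear_of_ncard {P : Set (E d)} (hP : IsPacking P) {y : E d} {ε : ℝ} {m : ℕ}
    (h : m ≤ {z ∈ P | z ≠ y ∧ dist y z ≤ 2 + ε}.ncard) : HasNear P y ε m := by
  obtain ⟨t, ht, htc⟩ := Set.exists_subset_card_eq h
  have hfin : t.Finite := by
    refine (finite_of_bounded hP y (2 + ε)).subset fun z hz => ?_
    exact ⟨(ht hz).1, by rw [dist_comm]; exact (ht hz).2.2⟩
  have hc : Fintype.card (Fin m) = hfin.toFinset.card := by
    rw [← Set.ncard_eq_toFinset_card t hfin, htc, Fintype.card_fin]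
  obtain ⟨e⟩ : Nonempty (Fin m ≃ hfin.toFinset) := by
    refine ⟨Fintype.equivOfCardEq ?_⟩
    rw [hc, Fintype.card_coe]
  refine ⟨fun i => (e i : E d), fun i j hij => e.injective (Subtype.ext hij), fun i => ?_⟩
  have := ht (hfin.mem_toFinset.1 (e i).2)
  exact ⟨this.1, this.2.1, this.2.2⟩

lemma HasNear.le_ncard {P : Set (E d)} (hP : IsPacking P) {y : E d} {ε : ℝ} {m : ℕ}
    (h : HasNear P y ε m) : m ≤ {z ∈ P | z ≠ y ∧ dist y z ≤ 2 + ε}.ncard := by
  obtain ⟨v, hv, h⟩ := h
  have hfin : {z ∈ P | z ≠ y ∧ dist y z ≤ 2 + ε}.Finite := by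
    refine (finite_of_bounded hP y (2 + ε)).subset fun z hz => ?_
    exact ⟨hz.1, by rw [dist_comm]; exact hz.2.2⟩
  calc m = (Set.range v).ncard := by
        rw [Set.ncard_range_of_injective hv, Nat.card_eq_fintype_card, Fintype.card_fin]
    _ ≤ _ := Set.ncard_le_ncard (by rintro _ ⟨i, rfl⟩; exact h i) hfin

/-- If there is no maximal packing, then in every packing every ball has a deficient ball
nearby, uniformly and robustly. -/
lemma exists_deficient (hno : ¬ ∃ P : Set (E d), IsMaximal P) :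
    ∃ k : ℕ, ∀ P : Set (E d), IsPacking P → ∀ x ∈ P, ∃ y ∈ P, dist y x ≤ k ∧
      ¬ HasNear P y (1 / ((k : ℝ) + 1)) (newton d) := by
  by_contra hcon
  push Not at hcon
  choose P hP x hx hN using hcon
  apply hno
  set Q : ℕ → Set (E d) := fun k => (fun z => z - x k) '' P k with hQ
  have hQp : ∀ k, IsPacking (Q k) := fun k => isPacking_translate (hP k) (x k)
  have hlp : IsPacking (limSet Q) := limSet_packing hQp
  refine ⟨limSet Q, ⟨0, fun _ => 0, fun k => ⟨x k, hx k, sub_self _⟩, tendsto_const_nhds⟩, hlp, ?_⟩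
  rintro z ⟨y, hy, hyz⟩
  have hz : z ∈ limSet Q := ⟨y, hy, hyz⟩
  have hfull : HasNear (limSet Q) z 0 (newton d) := by
    refine hasNear_limSet hQp hy hyz ?_
    have hk : ∀ᶠ k : ℕ in (hyperfilter ℕ : Filter ℕ), ‖z‖ + 1 ≤ (k : ℝ) := by
      have : ∀ᶠ k : ℕ in atTop, ‖z‖ + 1 ≤ (k : ℝ) :=
        tendsto_natCast_atTop_atTop.eventually_ge_atTop _
      rw [← Nat.cofinite_eq_atTop] at this
      exact hyperfilter_le_cofinite this
    filter_upwards [hk, hyz.eventually (ball_mem_nhds z one_pos)] with k hk1 hk2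
    obtain ⟨u, hu, huy⟩ := hy k
    have h1 : dist u (x k) ≤ k := by
      rw [dist_eq_norm]
      have h2 : ‖y k‖ ≤ ‖z‖ + 1 := by
        have hk3 : dist (y k) z < 1 := hk2
        rw [dist_eq_norm] at hk3
        have := norm_le_norm_add_norm_sub' (y k) z
        linarith
      have h3 : u - x k = y k := huy
      rw [h3]
      linarith
    have h4 := (hN k u hu h1).translate (x k)
    have h5 : u - x k = y k := huy
    rwa [h5] at h4
  have heq : {y ∈ limSet Q | Touch z y} = {y ∈ limSet Q | y ≠ z ∧ dist z y ≤ 2 + 0} := by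
    ext u
    simp only [mem_ofPred_eq, touch_iff, add_zero, ne_comm]
  rw [heq]
  apply le_antisymm
  · exact (hasNear_of_ncard hlp le_rfl).le_newton hlp hz
  · exact hfull.le_ncard hlp

end Pool.Agent.W_28d874_h30
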