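import Mathlib

namespace Pool.Agent.W_28d874_h30

open Metric Set

/-- Euclidean `d`-space. -/
abbrev E (d : ℕ) := EuclideanSpace ℝ (Fin d)

/-- The unit balls with centres in `P` form a packing: their interiors are pairwise disjoint. -/
def IsPacking {d : ℕ} (P : Set (E d)) : Prop :=
  P.Pairwise fun x y => Disjoint (ball x 1) (ball y 1)

/-- The (different) unit balls with centres `x` and `y` touch. -/
def Touch {d : ℕ} (x y : E d) : Prop :=
  x ≠ y ∧ (closedBall x 1 ∩ closedBall y 1).Nonempty

/-- The Newton number (kissing number) of the unit ball: the largest number of unit balls all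
touching the unit ball at the origin such that these balls and the unit ball at the origin form a
packing. -/
noncomputable def newton (d : ℕ) : ℕ :=
  sSup {k : ℕ | ∃ S : Finset (E d), S.card = k ∧ (∀ x ∈ S, Touch 0 x) ∧
    IsPacking (insert (0 : E d) (S : Set (E d)))}

/-- A maximal packing: a nonempty packing in which every ball touches exactly `newton d` others. -/
def IsMaximal {d : ℕ} (P : Set (E d)) : Prop :=
  P.Nonempty ∧ IsPacking P ∧ ∀ x ∈ P, {y ∈ P | Touch x y}.ncard = newton d

/-- The number of ordered pairs of different balls of the finite family `F` whose centres have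
distance at most `2 + ε` (twice the number of such unordered pairs). -/
noncomputable def nearPairs {d : ℕ} (F : Finset (E d)) (ε : ℝ) : ℕ := by
  classical exact (F.offDiag.filter fun p => dist p.1 p.2 ≤ 2 + ε).card

section

variable {d : ℕ}

lemma isPacking_iff {P : Set (E d)} :
    IsPacking P ↔ ∀ x ∈ P, ∀ y ∈ P, x ≠ y → 2 ≤ dist x y := by
  unfold IsPacking Set.Pairwise
  constructor
  · intro h x hx y hy hxy
    have h1 : Disjoint (ball x 1) (ball y 1) := h hx hy hxy
    rw [disjoint_ball_ball_iff one_pos one_pos] at h1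
    linarith
  · intro h x hx y hy hxy
    show Disjoint (ball x 1) (ball y 1)
    rw [disjoint_ball_ball_iff one_pos one_pos]
    linarith [h x hx y hy hxy]

lemma touch_iff {x y : E d} : Touch x y ↔ x ≠ y ∧ dist x y ≤ 2 := by
  unfold Touch
  refine and_congr_right fun _ => ?_
  rw [← Set.not_disjoint_iff_nonempty_inter, disjoint_closedBall_closedBall_iff zero_le_one zero_le_one]
  constructor
  · intro h; linarith [not_lt.1 h]
  · intro h; exact not_lt.2 (by linarith)

lemma IsPacking.mono {P Q : Set (E d)} (h : IsPacking P) (hQ : Q ⊆ P) : IsPacking Q :=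
  Set.Pairwise.mono hQ h

/-- Volume bound: a finite packing inside a difference of balls. -/
lemma card_mul_le {F : Finset (E d)} (hF : IsPacking (F : Set (E d))) {A : Set (E d)}
    (hA : ∀ x ∈ F, ball x 1 ⊆ A) :
    (F.card : ENNReal) * MeasureTheory.volume (ball (0 : E d) 1) ≤ MeasureTheory.volume A := by
  have h1 : MeasureTheory.volume (⋃ x ∈ F, ball x 1) =
      ∑ x ∈ F, MeasureTheory.volume (ball x 1) := by
    apply MeasureTheory.measure_biUnion_finset
    · intro x hx y hy hxy
      exact hF hx hy hxy
    · intro x _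
      exact measurableSet_ball
  have h2 : ∀ x ∈ F, MeasureTheory.volume (ball x 1) = MeasureTheory.volume (ball (0 : E d) 1) := by
    intro x _
    rw [MeasureTheory.Measure.addHaar_ball_center]
  rw [Finset.sum_congr rfl h2, Finset.sum_const, nsmul_eq_mul] at h1
  rw [← h1]
  apply MeasureTheory.measure_mono
  exact Set.iUnion₂_subset hA

lemma vol_ball_ne_zero : MeasureTheory.volume (ball (0 : E d) 1) ≠ 0 :=
  (Metric.measure_ball_pos _ _ one_pos).ne'

lemma vol_ball_ne_top : MeasureTheory.volume (ball (0 : E d) 1) ≠ ⊤ :=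
  MeasureTheory.measure_ball_lt_top.ne

lemma vol_ball (x : E d) {r : ℝ} (hr : 0 < r) : MeasureTheory.volume (ball x r) =
    ENNReal.ofReal (r ^ d) * MeasureTheory.volume (ball (0 : E d) 1) := by
  have := MeasureTheory.Measure.addHaar_ball_of_pos (μ := MeasureTheory.volume) x hr
  rw [this]
  simp

/-- At most `(R+1)^d` balls of a packing have centres within `R` of a given point. -/
lemma card_le_pow {F : Finset (E d)} (hF : IsPacking (F : Set (E d))) {p : E d} {R : ℝ}
    (hR : 0 ≤ R) (hp : ∀ x ∈ F, dist x p ≤ R) : (F.card : ℝ) ≤ (R + 1) ^ d := by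
  have h := card_mul_le hF (A := ball p (R + 1)) (by
    intro x hx
    apply ball_subset_ball'
    linarith [hp x hx])
  rw [vol_ball p (by linarith : 0 < R + 1)] at h
  have h2 := (ENNReal.mul_le_mul_iff_left vol_ball_ne_zero vol_ball_ne_top).1 h
  have h3 : (F.card : ENNReal) = ENNReal.ofReal (F.card : ℝ) := by simp
  rw [h3, ENNReal.ofReal_le_ofReal_iff (by positivity)] at h2
  exact h2

/-- A set of centres of a packing within a bounded region is finite. -/
lemma finite_of_bounded {P : Set (E d)} (hP : IsPacking P) (p : E d) (R : ℝ) :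
    {x ∈ P | dist x p ≤ R}.Finite := by
  by_contra hinf
  have hinf' : {x ∈ P | dist x p ≤ R}.Infinite := hinf
  obtain ⟨N, hN⟩ := exists_nat_gt ((|R| + 1) ^ d)
  obtain ⟨t, ht, htc⟩ := hinf'.exists_subset_card_eq N
  have hpk : IsPacking (t : Set (E d)) := hP.mono (fun x hx => (ht hx).1)
  have := card_le_pow hpk (p := p) (abs_nonneg R) (fun x hx => (ht hx).2.trans (le_abs_self R))
  rw [htc] at this
  linarith

end

end Pool.Agent.W_28d874_h30
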