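import Pool.Agent.W_28d874_h30.Lower

namespace Pool.Agent.W_28d874_h30

open Metric Set Filter Topology

variable {d : ℕ}

lemma infinite_of_maximal {P : Set (E d)} (hd : 1 ≤ d) (hP : IsMaximal P) : P.Infinite := by
  intro hfin
  obtain ⟨B, hB⟩ : ∃ B : ℝ, ∀ x ∈ P, dist x 0 ≤ B := by
    obtain ⟨B, hB⟩ := hfin.isBounded.subset_closedBall 0
    exact ⟨B, fun x hx => hB hx⟩
  have : Nonempty (Fin d) := ⟨⟨0, hd⟩⟩
  have : Nontrivial (E d) := inferInstance
  obtain ⟨p, hp⟩ := NormedSpace.exists_lt_norm ℝ (E d) (B + 2)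
  obtain ⟨x, hx, hxp⟩ := saturated hP p
  have h1 := hB x hx
  have h2 := dist_triangle p x 0
  rw [dist_zero_right] at h2
  rw [dist_comm] at hxp
  linarith

/-- Initial segments of `P` by distance to the origin. -/
lemma exists_segment {P : Set (E d)} (hd : 1 ≤ d) (hP : IsMaximal P) (n : ℕ) :
    ∃ F : Finset (E d), F.card = n ∧ (F : Set (E d)) ⊆ P ∧
      ∀ x ∈ F, ∀ y ∈ P, y ∉ F → dist x 0 ≤ dist y 0 := by
  classical
  induction n with
  | zero => exact ⟨∅, rfl, by simp, by simp⟩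
  | succ n ih =>
    obtain ⟨F, hFc, hFP, hF⟩ := ih
    have hinf : (P \ (F : Set (E d))).Infinite := (infinite_of_maximal hd hP).sdiff F.finite_toSet
    obtain ⟨z0, hz0⟩ := hinf.nonempty
    have hfin : {x ∈ P \ (F : Set (E d)) | dist x 0 ≤ dist z0 0}.Finite :=
      (finite_of_bounded hP.2.1 0 (dist z0 0)).subset fun x hx => ⟨hx.1.1, hx.2⟩
    obtain ⟨z, hz, hmin⟩ := Set.exists_min_image _ (fun x => dist x 0) hfin ⟨z0, hz0, le_rfl⟩
    have hzF : z ∉ F := hz.1.2
    refine ⟨insert z F, by rw [Finset.card_insert_of_notMem hzF, hFc], ?_, ?_⟩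
    · intro x hx
      rcases Finset.mem_insert.1 (Finset.mem_coe.1 hx) with rfl | hx
      · exact hz.1.1
      · exact hFP (Finset.mem_coe.2 hx)
    · intro x hx y hy hyF
      rw [Finset.mem_insert, not_or] at hyF
      rcases Finset.mem_insert.1 hx with rfl | hx
      · by_cases h : dist y 0 ≤ dist z0 0
        · exact hmin y ⟨⟨hy, hyF.2⟩, h⟩
        · push Not at h
          exact hz.2.trans h.le
      · exact hF x hx y hy hyF.2

/-- The lower bound for contact numbers in the presence of a maximal packing. -/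
lemma lower {P : Set (E d)} (hd : 1 ≤ d) (hP : IsMaximal P) (n : ℕ) :
    ∃ F : Finset (E d), F.card = n ∧ IsPacking (F : Set (E d)) ∧
      (newton d : ℝ) * n - 4 * d * 5 ^ (d - 1) * newton d * (n : ℝ) ^ (((d : ℝ) - 1) / d) ≤
        (nearPairs F 0 : ℝ) := by
  classical
  obtain ⟨F, hFc, hFP, hF⟩ := exists_segment hd hP n
  have hFp : IsPacking (F : Set (E d)) := hP.2.1.mono hFP
  refine ⟨F, hFc, hFp, ?_⟩
  rcases Nat.eq_zero_or_pos n with hn | hn
  · subst hn
    have h1 : F = ∅ := Finset.card_eq_zero.1 hFc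
    have h2 : (0 : ℝ) ≤ 4 * d * 5 ^ (d - 1) * newton d * ((0 : ℕ) : ℝ) ^ (((d : ℝ) - 1) / d) := by
      positivity
    have h3 : (0 : ℝ) ≤ (nearPairs F 0 : ℝ) := by positivity
    push_cast at *
    linarith
  have hFne : F.Nonempty := Finset.card_pos.1 (by omega)
  obtain ⟨m, hm, hmax⟩ := Finset.exists_max_image F (fun x => dist x 0) hFne
  set R := dist m 0 with hRdef
  have hR : 0 ≤ R := dist_nonneg
  have hin : ∀ y ∈ P, dist y 0 < R → y ∈ F := by
    intro y hy hlt
    by_contra hyF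
    linarith [hF m hm y hy hyF]
  -- interior balls are full
  have hfull : ∀ x ∈ F, dist x 0 < R - 2 → newton d ≤ ndeg F 0 x := by
    intro x hx hlt
    have hxP : x ∈ P := hFP (Finset.mem_coe.2 hx)
    rw [ndeg_eq_ncard, ← near_of_maximal hP hxP]
    apply Set.ncard_le_ncard
    · rintro z ⟨hz1, hz2, hz3⟩
      refine ⟨Finset.mem_coe.2 (hin z hz1 ?_), hz2, by linarith⟩
      have := dist_triangle z x 0
      rw [dist_comm] at hz3
      linarith
    · refine (finite_of_bounded hFp x (2 + 0)).subset fun z hz => ⟨hz.1, ?_⟩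
      rw [dist_comm]; exact hz.2.2
  set A := F.filter (fun x => R - 2 ≤ dist x 0) with hA
  have hAc : (A.card : ℝ) ≤ 4 * d * (R + 1) ^ (d - 1) := by
    refine shell_card_le (hFp.mono ?_) hR hd ?_
    · intro x hx
      exact Finset.mem_coe.2 (Finset.mem_filter.1 (Finset.mem_coe.1 hx)).1
    · intro x hx
      have h := Finset.mem_filter.1 hx
      exact ⟨h.2, hmax x h.1⟩
  have hRn : R ≤ 2 * (n : ℝ) ^ ((1 : ℝ) / d) + 2 := by
    rcases le_or_gt R 2 with h2 | h2
    · have : (0 : ℝ) ≤ (n : ℝ) ^ ((1 : ℝ) / d) := by positivity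
      linarith
    · have h1 := pow_le_ncard hP h2
      have h3 : ({x ∈ P | dist x 0 < R}.ncard : ℝ) ≤ n := by
        have h4 : {x ∈ P | dist x 0 < R} ⊆ (F : Set (E d)) := fun x hx =>
          Finset.mem_coe.2 (hin x hx.1 hx.2)
        have h5 := Set.ncard_le_ncard h4 F.finite_toSet
        rw [Set.ncard_coe_finset, hFc] at h5
        exact_mod_cast h5
      have h6 : ((R - 2) / 2) ^ d ≤ (n : ℝ) := h1.trans h3
      have hd0 : (d : ℝ) ≠ 0 := by positivity
      have h7 : (R - 2) / 2 ≤ (n : ℝ) ^ ((1 : ℝ) / d) := by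
        have h8 : (R - 2) / 2 = (((R - 2) / 2) ^ d) ^ ((1 : ℝ) / d) := by
          rw [one_div, Real.pow_rpow_inv_natCast (by linarith) (by omega)]
        rw [h8]
        exact Real.rpow_le_rpow (pow_nonneg (by linarith) _) h6 (by positivity)
      linarith
  have hn1 : (1 : ℝ) ≤ (n : ℝ) ^ ((1 : ℝ) / d) :=
    Real.one_le_rpow (by exact_mod_cast hn) (by positivity)
  have hpow : (R + 1) ^ (d - 1) ≤ 5 ^ (d - 1) * (n : ℝ) ^ (((d : ℝ) - 1) / d) := by
    have h1 : R + 1 ≤ 5 * (n : ℝ) ^ ((1 : ℝ) / d) := by linarith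
    have h2 := pow_le_pow_left₀ (by linarith : 0 ≤ R + 1) h1 (d - 1)
    rw [mul_pow] at h2
    have h3 : ((n : ℝ) ^ ((1 : ℝ) / d)) ^ (d - 1) = (n : ℝ) ^ (((d : ℝ) - 1) / d) := by
      rw [← Real.rpow_natCast, ← Real.rpow_mul (by positivity)]
      congr 1
      rw [Nat.cast_sub hd]
      push_cast
      ring
    rwa [h3] at h2
  have hsum : (newton d : ℝ) * (n - A.card) ≤ (nearPairs F 0 : ℝ) := by
    rw [nearPairs_eq_sum]
    push_cast
    have h1 : ∑ x ∈ F.filter (fun x => ¬ R - 2 ≤ dist x 0), (newton d : ℝ) ≤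
        ∑ x ∈ F, (ndeg F 0 x : ℝ) := by
      calc ∑ x ∈ F.filter (fun x => ¬ R - 2 ≤ dist x 0), (newton d : ℝ)
          ≤ ∑ x ∈ F.filter (fun x => ¬ R - 2 ≤ dist x 0), (ndeg F 0 x : ℝ) := by
            apply Finset.sum_le_sum
            intro x hx
            rw [Finset.mem_filter, not_le] at hx
            exact_mod_cast hfull x hx.1 hx.2
        _ ≤ ∑ x ∈ F, (ndeg F 0 x : ℝ) := by
            apply Finset.sum_le_sum_of_subset_of_nonneg (Finset.filter_subset _ _)
            intros; positivity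
    rw [Finset.sum_const, nsmul_eq_mul] at h1
    have h2 : (A.card : ℝ) + ((F.filter (fun x => ¬ R - 2 ≤ dist x 0)).card : ℝ) = n := by
      have := Finset.card_filter_add_card_filter_not (s := F) (fun x => R - 2 ≤ dist x 0)
      rw [hFc] at this
      exact_mod_cast this
    have h3 : ((F.filter (fun x => ¬ R - 2 ≤ dist x 0)).card : ℝ) = n - A.card := by linarith
    rw [h3] at h1
    linarith
  have h9 : (newton d : ℝ) * A.card ≤
      4 * d * 5 ^ (d - 1) * newton d * (n : ℝ) ^ (((d : ℝ) - 1) / d) := by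
    have h10 : (A.card : ℝ) ≤ 4 * d * (5 ^ (d - 1) * (n : ℝ) ^ (((d : ℝ) - 1) / d)) :=
      hAc.trans (mul_le_mul_of_nonneg_left hpow (by positivity))
    calc (newton d : ℝ) * A.card
        ≤ newton d * (4 * d * (5 ^ (d - 1) * (n : ℝ) ^ (((d : ℝ) - 1) / d))) :=
          mul_le_mul_of_nonneg_left h10 (by positivity)
      _ = _ := by ring
  linarith

end Pool.Agent.W_28d874_h30
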