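import Pool.Agent.W_28d874_h30.Stable

namespace Pool.Agent.W_28d874_h30

open Metric Set Filter Topology MeasureTheory

variable {d : ℕ}

/-- A full ball of a packing has a neighbour within sixty degrees of every direction. -/
lemma exists_dir_of_full {P : Set (E d)} (hP : IsPacking P) {x : E d} (hx : x ∈ P)
    (hfull : newton d ≤ {z ∈ P | z ≠ x ∧ dist x z ≤ 2}.ncard) {u : E d}
    (hu : ‖u‖ = 1) : ∃ y ∈ P, dist x y = 2 ∧ 1 < inner ℝ (y - x) u := by
  classical
  by_contra hcon
  push Not at hcon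
  have hpk := isPacking_iff.1 hP
  set N := {z ∈ P | z ≠ x ∧ dist x z ≤ 2} with hN
  have hNd : ∀ z ∈ N, dist x z = 2 := fun z hz =>
    le_antisymm hz.2.2 (hpk x hx z hz.1 hz.2.1.symm)
  have hNfin : N.Finite := by
    refine (finite_of_bounded hP x 2).subset fun z hz => ⟨hz.1, ?_⟩
    rw [dist_comm]; exact hz.2.2
  set w : E d := x + (2 : ℝ) • u with hw
  have hwx : dist x w = 2 := by
    rw [hw, dist_eq_norm]
    have : x - (x + (2 : ℝ) • u) = -((2 : ℝ) • u) := by abel
    rw [this, norm_neg, norm_smul, hu]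
    norm_num
  have hwz : ∀ z ∈ N, 2 ≤ dist w z := by
    intro z hz
    have h1 := hcon z hz.1 (hNd z hz)
    have h2 : ‖z - x‖ = 2 := by rw [← dist_eq_norm, dist_comm]; exact hNd z hz
    have h3 : w - z = (2 : ℝ) • u - (z - x) := by rw [hw]; abel
    rw [dist_eq_norm, h3]
    have h4 : ‖(2 : ℝ) • u - (z - x)‖ ^ 2 = 8 - 4 * inner ℝ (z - x) u := by
      rw [norm_sub_sq_real, norm_smul, hu, h2, inner_smul_left, real_inner_comm]
      simp
      ring
    have h5 : (2 : ℝ) ^ 2 ≤ ‖(2 : ℝ) • u - (z - x)‖ ^ 2 := by rw [h4]; linarith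
    exact le_of_sq_le_sq h5 (norm_nonneg _)
  have hwN : w ∉ N := by
    intro h
    have := hwz w h
    rw [dist_self] at this
    linarith
  set Q : Set (E d) := insert x (insert w N) with hQ
  have hQp : IsPacking Q := by
    rw [isPacking_iff]
    have hNN : ∀ a ∈ N, ∀ b ∈ N, a ≠ b → 2 ≤ dist a b := fun a ha b hb =>
      hpk a ha.1 b hb.1
    rintro a (rfl | rfl | ha) b (rfl | rfl | hb) hab
    · exact absurd rfl hab
    · exact hwx.ge
    · exact (hNd b hb).ge
    · rw [dist_comm]; exact hwx.ge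
    · exact absurd rfl hab
    · exact hwz b hb
    · rw [dist_comm]; exact (hNd a ha).ge
    · rw [dist_comm]; exact hwz a ha
    · exact hNN a ha b hb hab
  have h6 : newton d + 1 ≤ {z ∈ Q | z ≠ x ∧ dist x z ≤ 2 + 0}.ncard := by
    have h7 : insert w N ⊆ {z ∈ Q | z ≠ x ∧ dist x z ≤ 2 + 0} := by
      rintro z (rfl | hz)
      · refine ⟨Or.inr (Or.inl rfl), ?_, by rw [add_zero]; exact hwx.le⟩
        intro h; rw [h, dist_self] at hwx; norm_num at hwx
      · exact ⟨Or.inr (Or.inr hz), hz.2.1, by rw [add_zero]; exact hz.2.2⟩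
    have h8 : {z ∈ Q | z ≠ x ∧ dist x z ≤ 2 + 0}.Finite := by
      refine (finite_of_bounded hQp x 2).subset fun z hz => ⟨hz.1, ?_⟩
      rw [dist_comm]; have := hz.2.2; rwa [add_zero] at this
    have h9 := Set.ncard_le_ncard h7 h8
    rw [Set.ncard_insert_of_notMem hwN hNfin] at h9
    omega
  have h10 := (hasNear_of_ncard hQp h6).le_newton hQp (Or.inl rfl)
  omega

/-- The nearest centre to a far point is deficient. -/
lemma nearest_deficient {F : Finset (E d)} (hF : IsPacking (F : Set (E d))) {p x : E d}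
    (hx : x ∈ F) (hfar : 2 ≤ dist x p) (hmin : ∀ y ∈ F, dist x p ≤ dist y p) :
    ndeg F 0 x < newton d := by
  by_contra hge
  push Not at hge
  rw [ndeg_eq_ncard, add_zero] at hge
  have hr : 0 < dist x p := by linarith
  set r := dist x p with hrdef
  have hrn : ‖p - x‖ = r := by rw [hrdef, dist_comm, dist_eq_norm]
  set u : E d := (1 / r) • (p - x) with hu
  have hun : ‖u‖ = 1 := by
    rw [hu, norm_smul, hrn, Real.norm_of_nonneg (by positivity)]
    field_simp
  obtain ⟨y, hyP, hxy, hyu⟩ := exists_dir_of_full hF (Finset.mem_coe.2 hx) hge hun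
  have h1 : ‖y - x‖ = 2 := by rw [← dist_eq_norm, dist_comm]; exact hxy
  have h2 : p - x = r • u := by
    rw [hu, smul_smul]
    have : r * (1 / r) = 1 := by field_simp
    rw [this, one_smul]
  have h3 : dist y p ^ 2 < r ^ 2 := by
    have h4 : y - p = (y - x) - r • u := by rw [← h2]; abel
    rw [dist_eq_norm, h4, norm_sub_sq_real, h1, norm_smul, hun, inner_smul_right,
      Real.norm_of_nonneg hr.le]
    nlinarith
  have h5 : dist y p < r := lt_of_pow_lt_pow_left₀ 2 hr.le h3
  exact absurd (hmin y (Finset.mem_coe.1 hyP)) (not_le.2 h5)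

lemma dist_update (x : Fin d → ℝ) (i : Fin d) (s t : ℝ) :
    dist (WithLp.toLp 2 (Function.update x i s) : E d) (WithLp.toLp 2 (Function.update x i t)) =
      |s - t| := by
  rw [EuclideanSpace.dist_eq, Finset.sum_eq_single i]
  · simp [Real.dist_eq, Real.sqrt_sq_eq_abs]
  · intro j _ hj
    simp [Function.update_of_ne hj]
  · intro h; exact absurd (Finset.mem_univ _) h

/-- Every line through a ball of the family meets the neighbourhood of deficient balls in length
at least one. -/
lemma line_ge_one {F : Finset (E d)} (hF : IsPacking (F : Set (E d))) (x : Fin d → ℝ)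
    (hx : ∃ y ∈ F, dist (WithLp.toLp 2 x : E d) y ≤ 2) (i : Fin d) :
    1 ≤ volume {t : ℝ | ∃ y ∈ F, ndeg F 0 y < newton d ∧
      dist (WithLp.toLp 2 (Function.update x i t) : E d) y < 3} := by
  classical
  set φ : ℝ → E d := fun t => WithLp.toLp 2 (Function.update x i t) with hφ
  have hφd : ∀ s t, dist (φ s) (φ t) = |s - t| := dist_update x i
  have hφc : Continuous φ := by
    refine (LipschitzWith.of_dist_le_mul (K := 1) fun s t => ?_).continuous
    rw [hφd, NNReal.coe_one, one_mul, Real.dist_eq]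
  set U : Set (E d) := ⋃ y ∈ F, closedBall y 2 with hU
  have hUc : IsClosed U := Set.Finite.isClosed_biUnion F.finite_toSet fun y _ => isClosed_closedBall
  set A : Set ℝ := φ ⁻¹' U with hA
  have hAc : IsClosed A := hUc.preimage hφc
  have hφx : φ (x i) = WithLp.toLp 2 x := by rw [hφ]; simp
  obtain ⟨y1, hy1, hy1d⟩ := hx
  have hAne : A.Nonempty := by
    refine ⟨x i, ?_⟩
    show φ (x i) ∈ U
    rw [hφx, hU, mem_iUnion₂]
    exact ⟨y1, hy1, hy1d⟩
  have hAb : BddAbove A := by
    obtain ⟨B, hB⟩ : ∃ B : ℝ, ∀ p ∈ U, dist p (φ (x i)) ≤ B := by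
      have hUb : Bornology.IsBounded U :=
        (Bornology.isBounded_biUnion F.finite_toSet).2 fun y _ => isBounded_closedBall
      obtain ⟨B, hB⟩ := hUb.subset_closedBall (φ (x i))
      exact ⟨B, fun p hp => hB hp⟩
    refine ⟨x i + B, fun t ht => ?_⟩
    have := hB (φ t) ht
    rw [hφd] at this
    linarith [le_abs_self (t - x i)]
  set T := sSup A with hT
  have hTA : T ∈ A := hAc.csSup_mem hAne hAb
  have hTU : φ T ∈ U := hTA
  rw [hU, mem_iUnion₂] at hTU
  obtain ⟨y0, hy0, hy0d⟩ := hTU
  have hsub : Ioo T (T + 1) ⊆ {t : ℝ | ∃ y ∈ F, ndeg F 0 y < newton d ∧ dist (φ t) y < 3} := by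
    intro s hs
    have hsA : s ∉ A := fun h => absurd (le_csSup hAb h) (not_le.2 hs.1)
    have hsU : ∀ y ∈ F, 2 < dist y (φ s) := by
      intro y hy
      by_contra hle
      push Not at hle
      apply hsA
      show φ s ∈ U
      rw [hU, mem_iUnion₂]
      exact ⟨y, hy, by rw [mem_closedBall, dist_comm]; exact hle⟩
    obtain ⟨y, hy, hmin⟩ := Finset.exists_min_image F (fun y => dist y (φ s)) ⟨y1, hy1⟩
    refine ⟨y, hy, nearest_deficient hF hy (hsU y hy).le hmin, ?_⟩
    have h1 : dist y (φ s) ≤ dist y0 (φ s) := hmin y0 hy0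
    have h2 : dist (φ T) y0 ≤ 2 := hy0d
    have h3 : dist (φ T) (φ s) = |T - s| := hφd T s
    have h4 : |T - s| < 1 := by rw [abs_lt]; constructor <;> linarith [hs.1, hs.2]
    have h5 := dist_triangle y0 (φ T) (φ s)
    rw [dist_comm y0 (φ T)] at h5
    rw [dist_comm]
    linarith
  calc (1 : ENNReal) = volume (Ioo T (T + 1)) := by simp
    _ ≤ _ := measure_mono hsub

/-- Isoperimetric lower bound for the number of deficient balls. -/
lemma deficient_ge (hd : 2 ≤ d) {F : Finset (E d)} (hF : IsPacking (F : Set (E d))) :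
    (F.card : ENNReal) * volume (ball (0 : E d) 1) ≤
      (((F.filter fun y => ndeg F 0 y < newton d).card : ENNReal) *
        (ENNReal.ofReal (3 ^ d) * volume (ball (0 : E d) 1))) ^ ((d : ℝ) / ((d : ℝ) - 1)) := by
  classical
  set D := F.filter fun y => ndeg F 0 y < newton d with hD
  set W : Set (E d) := ⋃ y ∈ D, ball y 3 with hW
  have hWo : IsOpen W := isOpen_biUnion fun y _ => isOpen_ball
  have hWm : MeasurableSet W := hWo.measurableSet
  have hpres : MeasurePreserving (fun x : Fin d → ℝ => (WithLp.toLp 2 x : E d)) :=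
    PiLp.volume_preserving_toLp (Fin d)
  set W' : Set (Fin d → ℝ) := (fun x => (WithLp.toLp 2 x : E d)) ⁻¹' W with hW'
  have hW'm : MeasurableSet W' := hpres.measurable hWm
  have hW'v : volume W' = volume W := hpres.measure_preimage hWm.nullMeasurableSet
  set V : Set (E d) := ⋃ y ∈ F, ball y 1 with hV
  have hVm : MeasurableSet V := (isOpen_biUnion fun y _ => isOpen_ball).measurableSet
  set V' : Set (Fin d → ℝ) := (fun x => (WithLp.toLp 2 x : E d)) ⁻¹' V with hV'
  have hV'm : MeasurableSet V' := hpres.measurable hVm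
  have hV'v : volume V' = volume V := hpres.measure_preimage hVm.nullMeasurableSet
  have hVv : volume V = (F.card : ENNReal) * volume (ball (0 : E d) 1) := by
    rw [hV, measure_biUnion_finset]
    · rw [Finset.sum_congr rfl (fun y _ => Measure.addHaar_ball_center (μ := volume) y 1)]
      rw [Finset.sum_const, nsmul_eq_mul]
    · intro x hx y hy hxy
      exact hF hx hy hxy
    · intro x _
      exact measurableSet_ball
  have hWv : volume W ≤ (D.card : ENNReal) *
      (ENNReal.ofReal (3 ^ d) * volume (ball (0 : E d) 1)) := by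
    rw [hW]
    refine (measure_biUnion_finset_le _ _).trans ?_
    rw [Finset.sum_congr rfl (fun y _ => vol_ball y (by norm_num : (0 : ℝ) < 3)),
      Finset.sum_const, nsmul_eq_mul]
  have hd1 : (1 : ℝ) < d := by exact_mod_cast hd
  have hconj : Real.HolderConjugate (Fintype.card (Fin d) : ℝ) ((d : ℝ) / ((d : ℝ) - 1)) := by
    rw [Fintype.card_fin]
    exact Real.HolderConjugate.conjExponent hd1
  have hgrid := lintegral_prod_lintegral_pow_le (fun _ : Fin d => (volume : Measure ℝ)) hconj
    (f := W'.indicator 1) (measurable_one.indicator hW'm)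
  rw [← volume_pi, lintegral_indicator_one hW'm, hW'v] at hgrid
  have hlow : volume V' ≤ ∫⁻ x : Fin d → ℝ, ∏ i, (∫⁻ t, W'.indicator 1 (Function.update x i t)) ^
      ((1 : ℝ) / ((Fintype.card (Fin d) : ℝ) - 1)) := by
    rw [← lintegral_indicator_one hV'm]
    apply lintegral_mono
    intro x
    by_cases hx : x ∈ V'
    · rw [Set.indicator_of_mem hx, Pi.one_apply]
      apply Finset.one_le_prod'
      intro i _
      apply ENNReal.one_le_rpow
      · have h1 : ∫⁻ t, W'.indicator 1 (Function.update x i t) =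
            volume {t : ℝ | ∃ y ∈ F, ndeg F 0 y < newton d ∧
              dist (WithLp.toLp 2 (Function.update x i t) : E d) y < 3} := by
          have h2 : {t : ℝ | ∃ y ∈ F, ndeg F 0 y < newton d ∧
              dist (WithLp.toLp 2 (Function.update x i t) : E d) y < 3} =
              (fun t => Function.update x i t) ⁻¹' W' := by
            ext t
            simp only [hW', hW, hD, mem_preimage, mem_iUnion₂, Finset.mem_filter, mem_ball,
              exists_prop, mem_ofPred_eq, and_assoc]
          rw [h2, ← lintegral_indicator_one]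
          · rfl
          · exact (measurable_update x) hW'm
        rw [h1]
        apply line_ge_one hF x _ i
        have h3 : (WithLp.toLp 2 x : E d) ∈ V := hx
        rw [hV, mem_iUnion₂] at h3
        obtain ⟨y, hy, hxy⟩ := h3
        exact ⟨y, hy, le_of_lt (lt_trans (mem_ball.1 hxy) one_lt_two)⟩
      · rw [Fintype.card_fin]
        have : (0 : ℝ) < (d : ℝ) - 1 := by linarith
        positivity
    · rw [Set.indicator_of_notMem hx]
      exact bot_le
  rw [← hVv, ← hV'v]
  refine hlow.trans (hgrid.trans ?_)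
  exact ENNReal.rpow_le_rpow hWv (by
    have : (0 : ℝ) < (d : ℝ) - 1 := by linarith
    positivity)

/-- Upper bound for the number of touching pairs in finite packings. -/
lemma upper_iso (hd : 2 ≤ d) : ∃ c : ℝ, 0 < c ∧ ∀ F : Finset (E d), IsPacking (F : Set (E d)) →
    (nearPairs F 0 : ℝ) ≤ (newton d : ℝ) * F.card - c * (F.card : ℝ) ^ (((d : ℝ) - 1) / d) := by
  classical
  obtain ⟨ω, hω0, hωe⟩ : ∃ ω : ℝ, 0 < ω ∧ volume (ball (0 : E d) 1) = ENNReal.ofReal ω :=
    ⟨(volume (ball (0 : E d) 1)).toReal, ENNReal.toReal_pos vol_ball_ne_zero vol_ball_ne_top,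
      (ENNReal.ofReal_toReal vol_ball_ne_top).symm⟩
  have hd1 : (1 : ℝ) < d := by exact_mod_cast hd
  have hdm : (0 : ℝ) < (d : ℝ) - 1 := by linarith
  obtain ⟨q, hq⟩ : ∃ q : ℝ, q = ((d : ℝ) - 1) / d := ⟨_, rfl⟩
  have hq0 : 0 < q := by rw [hq]; positivity
  rw [← hq]
  refine ⟨ω ^ q / (3 ^ d * ω), by positivity, fun F hF => ?_⟩
  have h1 := deficient_ge hd hF
  obtain ⟨D, hD⟩ : ∃ D, D = F.filter fun y => ndeg F 0 y < newton d := ⟨_, rfl⟩
  rw [← hD] at h1
  have h2 : ((F.card : ℝ) * ω) ≤ ((D.card : ℝ) * (3 ^ d * ω)) ^ ((d : ℝ) / ((d : ℝ) - 1)) := by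
    rw [hωe] at h1
    have e1 : (F.card : ENNReal) = ENNReal.ofReal (F.card : ℝ) := by simp
    have e2 : (D.card : ENNReal) = ENNReal.ofReal (D.card : ℝ) := by simp
    rw [e1, e2, ← ENNReal.ofReal_mul (by positivity), ← ENNReal.ofReal_mul (by positivity),
      ← ENNReal.ofReal_mul (by positivity), ENNReal.ofReal_rpow_of_nonneg (by positivity)
      (by positivity), ENNReal.ofReal_le_ofReal_iff (by positivity)] at h1
    exact h1
  have h3 : ((F.card : ℝ) * ω) ^ q ≤ (D.card : ℝ) * (3 ^ d * ω) := by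
    have h4 := Real.rpow_le_rpow (by positivity) h2 hq0.le
    rw [← Real.rpow_mul (by positivity)] at h4
    have h5 : (d : ℝ) / ((d : ℝ) - 1) * q = 1 := by
      rw [hq]; field_simp
    rwa [h5, Real.rpow_one] at h4
  have h6 : ω ^ q / (3 ^ d * ω) * (F.card : ℝ) ^ q ≤ D.card := by
    rw [div_mul_eq_mul_div, div_le_iff₀ (by positivity), ← Real.mul_rpow hω0.le (by positivity),
      mul_comm ω]
    exact h3
  have hupper : ∀ x ∈ F, ndeg F 0 x ≤ newton d := by
    intro x hx
    rw [ndeg_eq_ncard]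
    exact (hasNear_of_ncard hF le_rfl).le_newton hF (Finset.mem_coe.2 hx)
  have hsum : (nearPairs F 0 : ℝ) ≤ (newton d : ℝ) * F.card - D.card := by
    rw [nearPairs_eq_sum]
    have h1 : ∀ x ∈ F, (ndeg F 0 x : ℝ) + (if ndeg F 0 x < newton d then 1 else 0) ≤ newton d := by
      intro x hx
      split_ifs with h
      · exact_mod_cast h
      · rw [add_zero]; exact_mod_cast hupper x hx
    have h2 := Finset.sum_le_sum h1
    rw [Finset.sum_add_distrib, Finset.sum_const, nsmul_eq_mul] at h2
    have h3 : ∑ x ∈ F, (if ndeg F 0 x < newton d then (1 : ℝ) else 0) = D.card := by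
      rw [hD, Finset.card_filter]
      push_cast
      rfl
    rw [h3] at h2
    push_cast
    linarith
  linarith

end Pool.Agent.W_28d874_h30
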