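import Pool.Agent.W_28d874_h30.Upper

namespace Pool.Agent.W_28d874_h30

open Metric Set Filter Topology

variable {d : ℕ}

lemma near_of_maximal {P : Set (E d)} (hP : IsMaximal P) {x : E d} (hx : x ∈ P) :
    {z ∈ P | z ≠ x ∧ dist x z ≤ 2}.ncard = newton d := by
  rw [← hP.2.2 x hx]
  congr 1
  ext u
  simp only [mem_ofPred_eq, touch_iff, ne_comm]

/-- In a maximal packing every direction at every centre is within sixty degrees of a neighbour. -/
lemma exists_dir {P : Set (E d)} (hP : IsMaximal P) {x : E d} (hx : x ∈ P) {u : E d}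
    (hu : ‖u‖ = 1) : ∃ y ∈ P, dist x y = 2 ∧ 1 < inner ℝ (y - x) u := by
  classical
  by_contra hcon
  push Not at hcon
  have hpk := isPacking_iff.1 hP.2.1
  -- the enlarged packing
  set N := {z ∈ P | z ≠ x ∧ dist x z ≤ 2} with hN
  have hNd : ∀ z ∈ N, dist x z = 2 := fun z hz =>
    le_antisymm hz.2.2 (hpk x hx z hz.1 hz.2.1.symm)
  have hNfin : N.Finite := by
    refine (finite_of_bounded hP.2.1 x 2).subset fun z hz => ⟨hz.1, ?_⟩
    rw [dist_comm]; exact hz.2.2
  have hNc : N.ncard = newton d := near_of_maximal hP hx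
  set w : E d := x + (2 : ℝ) • u with hw
  have hwx : dist x w = 2 := by
    rw [hw, dist_eq_norm]
    have : x - (x + (2 : ℝ) • u) = -((2 : ℝ) • u) := by abel
    rw [this, norm_neg, norm_smul, hu]
    norm_num
  have hwz : ∀ z ∈ N, 2 ≤ dist w z := by
    intro z hz
    have h1 := hcon z hz.1 (hNd z hz)
    have h2 : ‖z - x‖ = 2 := by rw [← dist_eq_norm, dist_comm]; exact hNd z hz
    have h3 : w - z = (2 : ℝ) • u - (z - x) := by rw [hw]; abel
    rw [dist_eq_norm, h3]
    have h4 : ‖(2 : ℝ) • u - (z - x)‖ ^ 2 = 8 - 4 * inner ℝ (z - x) u := by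
      rw [norm_sub_sq_real, norm_smul, hu, h2, inner_smul_left, real_inner_comm]
      simp
      ring
    have h5 : (2 : ℝ) ^ 2 ≤ ‖(2 : ℝ) • u - (z - x)‖ ^ 2 := by rw [h4]; linarith
    exact le_of_sq_le_sq h5 (norm_nonneg _)
  have hwN : w ∉ N := by
    intro h
    have := hwz w h
    rw [dist_self] at this
    linarith
  set Q : Set (E d) := insert x (insert w N) with hQ
  have hQp : IsPacking Q := by
    rw [isPacking_iff]
    have hNN : ∀ a ∈ N, ∀ b ∈ N, a ≠ b → 2 ≤ dist a b := fun a ha b hb =>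
      hpk a ha.1 b hb.1
    rintro a (rfl | rfl | ha) b (rfl | rfl | hb) hab
    · exact absurd rfl hab
    · exact hwx.ge
    · exact (hNd b hb).ge
    · rw [dist_comm]; exact hwx.ge
    · exact absurd rfl hab
    · exact hwz b hb
    · rw [dist_comm]; exact (hNd a ha).ge
    · rw [dist_comm]; exact hwz a ha
    · exact hNN a ha b hb hab
  have h6 : newton d + 1 ≤ {z ∈ Q | z ≠ x ∧ dist x z ≤ 2 + 0}.ncard := by
    have h7 : insert w N ⊆ {z ∈ Q | z ≠ x ∧ dist x z ≤ 2 + 0} := by
      rintro z (rfl | hz)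
      · refine ⟨Or.inr (Or.inl rfl), ?_, by rw [add_zero]; exact hwx.le⟩
        intro h; rw [h, dist_self] at hwx; norm_num at hwx
      · exact ⟨Or.inr (Or.inr hz), hz.2.1, by rw [add_zero]; exact hz.2.2⟩
    have h8 : {z ∈ Q | z ≠ x ∧ dist x z ≤ 2 + 0}.Finite := by
      refine (finite_of_bounded hQp x 2).subset fun z hz => ⟨hz.1, ?_⟩
      rw [dist_comm]; have := hz.2.2; rwa [add_zero] at this
    have h9 := Set.ncard_le_ncard h7 h8
    rwa [Set.ncard_insert_of_notMem hwN hNfin, hNc] at h9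
  have h10 := (hasNear_of_ncard hQp h6).le_newton hQp (Or.inl rfl)
  omega

/-- Maximal packings are saturated. -/
lemma saturated {P : Set (E d)} (hP : IsMaximal P) (p : E d) : ∃ x ∈ P, dist x p < 2 := by
  classical
  obtain ⟨x0, hx0⟩ := hP.1
  have hfin := finite_of_bounded hP.2.1 p (dist x0 p)
  have hne : ({x ∈ P | dist x p ≤ dist x0 p}).Nonempty := ⟨x0, hx0, le_rfl⟩
  obtain ⟨x, hx, hmin⟩ := Set.exists_min_image _ (fun x => dist x p) hfin hne
  refine ⟨x, hx.1, ?_⟩
  by_contra hge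
  push Not at hge
  have hr : 0 < dist x p := by linarith
  set r := dist x p with hrdef
  have hrn : ‖p - x‖ = r := by rw [hrdef, dist_comm, dist_eq_norm]
  set u : E d := (1 / r) • (p - x) with hu
  have hun : ‖u‖ = 1 := by
    rw [hu, norm_smul, hrn, Real.norm_of_nonneg (by positivity)]
    field_simp
  obtain ⟨y, hyP, hxy, hyu⟩ := exists_dir hP hx.1 hun
  have h1 : ‖y - x‖ = 2 := by rw [← dist_eq_norm, dist_comm]; exact hxy
  have h2 : p - x = r • u := by
    rw [hu, smul_smul]
    have : r * (1 / r) = 1 := by field_simp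
    rw [this, one_smul]
  have h3 : dist y p ^ 2 < r ^ 2 := by
    have h4 : y - p = (y - x) - r • u := by rw [← h2]; abel
    rw [dist_eq_norm, h4, norm_sub_sq_real, h1, norm_smul, hun, inner_smul_right,
      Real.norm_of_nonneg hr.le]
    nlinarith
  have h5 : dist y p < r := lt_of_pow_lt_pow_left₀ 2 hr.le h3
  have h6 := hmin y ⟨hyP, h5.le.trans hx.2⟩
  linarith

/-- Lower bound for the number of centres of a saturated packing in a ball. -/
lemma pow_le_ncard {P : Set (E d)} (hP : IsMaximal P) {R : ℝ} (hR : 2 < R) :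
    ((R - 2) / 2) ^ d ≤ ({x ∈ P | dist x 0 < R}.ncard : ℝ) := by
  classical
  have hfin : {x ∈ P | dist x 0 < R}.Finite :=
    (finite_of_bounded hP.2.1 0 R).subset fun x hx => ⟨hx.1, hx.2.le⟩
  have hsub : ball (0 : E d) (R - 2) ⊆ ⋃ x ∈ hfin.toFinset, ball x 2 := by
    intro p hp
    obtain ⟨x, hx, hxp⟩ := saturated hP p
    rw [mem_iUnion₂]
    refine ⟨x, ?_, by rw [mem_ball, dist_comm]; exact hxp⟩
    rw [Set.Finite.mem_toFinset]
    refine ⟨hx, ?_⟩
    have : dist p 0 < R - 2 := hp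
    linarith [dist_triangle x p 0]
  have h1 := MeasureTheory.measure_mono (μ := MeasureTheory.volume) hsub
  have h2 := h1.trans (MeasureTheory.measure_biUnion_finset_le _ _)
  rw [vol_ball 0 (by linarith : 0 < R - 2), Finset.sum_congr rfl (fun x _ => vol_ball x two_pos),
    Finset.sum_const, nsmul_eq_mul, ← mul_assoc] at h2
  have h3 := (ENNReal.mul_le_mul_iff_left vol_ball_ne_zero vol_ball_ne_top).1 h2
  have h4 : (hfin.toFinset.card : ENNReal) = ENNReal.ofReal (hfin.toFinset.card : ℝ) := by simp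
  rw [h4, ← ENNReal.ofReal_mul (by positivity), ENNReal.ofReal_le_ofReal_iff (by positivity)] at h3
  rw [Set.ncard_eq_toFinset_card _ hfin, div_pow, div_le_iff₀ (by positivity)]
  exact h3

/-- Upper bound for the number of centres in a spherical shell of width two. -/
lemma shell_card_le {F : Finset (E d)} (hF : IsPacking (F : Set (E d))) {R : ℝ} (hR : 0 ≤ R)
    (hd : 1 ≤ d) (h : ∀ x ∈ F, R - 2 ≤ dist x 0 ∧ dist x 0 ≤ R) :
    (F.card : ℝ) ≤ 4 * d * (R + 1) ^ (d - 1) := by
  obtain ⟨e, rfl⟩ : ∃ e, d = e + 1 := ⟨d - 1, by omega⟩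
  simp only [Nat.add_sub_cancel]
  rcases le_or_gt R 3 with hR3 | hR3
  · have h1 := card_le_pow hF (p := 0) hR (fun x hx => (h x hx).2)
    have h2 : (R + 1) ^ (e + 1) ≤ 4 * (R + 1) ^ e := by
      rw [pow_succ, mul_comm]
      exact mul_le_mul_of_nonneg_right (by linarith) (by positivity)
    have h3 : (4 : ℝ) * (R + 1) ^ e ≤ 4 * ((e + 1 : ℕ) : ℝ) * (R + 1) ^ e := by
      apply mul_le_mul_of_nonneg_right _ (by positivity)
      push_cast
      nlinarith [Nat.cast_nonneg (α := ℝ) e]
    linarith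
  · have hsub : ∀ x ∈ F, ball x 1 ⊆ ball (0 : E (e + 1)) (R + 1) \ ball (0 : E (e + 1)) (R - 3) := by
      intro x hx p hp
      have h1 := h x hx
      have h2 : dist p x < 1 := hp
      refine ⟨?_, ?_⟩
      · show dist p 0 < R + 1
        linarith [dist_triangle p x 0]
      · intro h3
        have h4 : dist p 0 < R - 3 := h3
        have := dist_triangle x p 0
        rw [dist_comm x p] at this
        linarith
    have h1 := card_mul_le hF hsub
    rw [MeasureTheory.measure_sdiff (ball_subset_ball (by linarith))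
      measurableSet_ball.nullMeasurableSet MeasureTheory.measure_ball_lt_top.ne,
      vol_ball 0 (by linarith : 0 < R + 1), vol_ball 0 (by linarith : 0 < R - 3),
      ← ENNReal.sub_mul (fun _ _ => vol_ball_ne_top), ← ENNReal.ofReal_sub _ (by
        have : 0 < R - 3 := by linarith
        positivity)] at h1
    have h2 := (ENNReal.mul_le_mul_iff_left vol_ball_ne_zero vol_ball_ne_top).1 h1
    have h4 : (F.card : ENNReal) = ENNReal.ofReal (F.card : ℝ) := by simp
    have h5 : (R - 3) ^ (e + 1) ≤ (R + 1) ^ (e + 1) :=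
      pow_le_pow_left₀ (by linarith) (by linarith) _
    rw [h4, ENNReal.ofReal_le_ofReal_iff (by linarith)] at h2
    refine h2.trans ?_
    -- (R+1)^(e+1) - (R-3)^(e+1) ≤ 4 (e+1) (R+1)^e
    have h6 : ∀ n : ℕ, (R + 1) ^ (n + 1) - (R - 3) ^ (n + 1) ≤ 4 * ((n + 1 : ℕ) : ℝ) * (R + 1) ^ n := by
      intro n
      induction n with
      | zero => simp; linarith
      | succ n ih =>
        have h7 : (R - 3) ^ (n + 1) ≤ (R + 1) ^ (n + 1) :=
          pow_le_pow_left₀ (by linarith) (by linarith) _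
        have h8 : (R + 1) ^ (n + 1 + 1) - (R - 3) ^ (n + 1 + 1) =
            (R + 1) * ((R + 1) ^ (n + 1) - (R - 3) ^ (n + 1)) + 4 * (R - 3) ^ (n + 1) := by ring
        rw [h8]
        have h9 : (R + 1) * ((R + 1) ^ (n + 1) - (R - 3) ^ (n + 1)) ≤
            (R + 1) * (4 * ((n + 1 : ℕ) : ℝ) * (R + 1) ^ n) :=
          mul_le_mul_of_nonneg_left ih (by linarith)
        have h10 : (R + 1) * (4 * ((n + 1 : ℕ) : ℝ) * (R + 1) ^ n) =
            4 * ((n + 1 : ℕ) : ℝ) * (R + 1) ^ (n + 1) := by ring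
        push_cast at *
        nlinarith
    exact h6 e

end Pool.Agent.W_28d874_h30
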