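import Pool.Agent.W_28d874_h30.Iso

namespace Pool.Agent.W_28d874_h30

open Metric Set Filter Topology

/-- `maxPairs d n ε`: the largest number of ordered pairs of different balls with centres at
distance at most `2 + ε` in a packing of `n` unit balls in `E^d` (for `ε = 0`: twice the contact
number, i.e. twice the largest number of touching pairs). -/
noncomputable def maxPairs (d n : ℕ) (ε : ℝ) : ℕ :=
  sSup {k : ℕ | ∃ F : Finset (E d), F.card = n ∧ IsPacking (F : Set (E d)) ∧ nearPairs F ε = k}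

variable {d : ℕ}

lemma exists_packing_card (hd : 1 ≤ d) (n : ℕ) :
    ∃ F : Finset (E d), F.card = n ∧ IsPacking (F : Set (E d)) := by
  classical
  set v : E d := EuclideanSpace.single (⟨0, hd⟩ : Fin d) (1 : ℝ) with hv
  have hvn : ‖v‖ = 1 := by rw [hv]; simp
  have hdist : ∀ a b : ℕ, a ≠ b → 2 ≤ dist ((2 * (a : ℝ)) • v) ((2 * (b : ℝ)) • v) := by
    intro a b hab
    rw [dist_eq_norm, ← sub_smul, norm_smul, hvn, mul_one, Real.norm_eq_abs]
    have h1 : (2 * (a : ℝ)) - 2 * b = 2 * (((a : ℤ) - b : ℤ) : ℝ) := by push_cast; ring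
    rw [h1, abs_mul, abs_two]
    have h2 : (1 : ℝ) ≤ |(((a : ℤ) - b : ℤ) : ℝ)| := by
      have : 1 ≤ |(a : ℤ) - b| := Int.one_le_abs (by omega)
      exact_mod_cast this
    linarith
  have hinj : Function.Injective fun a : ℕ => (2 * (a : ℝ)) • v := by
    intro a b hab
    by_contra hne
    have h1 := hdist a b hne
    have h2 : (2 * (a : ℝ)) • v = (2 * (b : ℝ)) • v := hab
    rw [h2, dist_self] at h1
    linarith
  refine ⟨(Finset.range n).image fun a : ℕ => (2 * (a : ℝ)) • v, ?_, ?_⟩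
  · rw [Finset.card_image_of_injective _ hinj, Finset.card_range]
  · rw [isPacking_iff]
    intro x hx y hy hxy
    obtain ⟨a, _, rfl⟩ := Finset.mem_image.1 (Finset.mem_coe.1 hx)
    obtain ⟨b, _, rfl⟩ := Finset.mem_image.1 (Finset.mem_coe.1 hy)
    exact hdist a b fun h => hxy (by rw [h])

lemma nearPairs_le_sq (F : Finset (E d)) (ε : ℝ) : nearPairs F ε ≤ F.card * F.card := by
  classical
  unfold nearPairs
  refine (Finset.card_filter_le _ _).trans ?_
  rw [Finset.offDiag_card]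
  exact Nat.sub_le _ _

lemma maxPairs_mem (hd : 1 ≤ d) (n : ℕ) (ε : ℝ) :
    ∃ F : Finset (E d), F.card = n ∧ IsPacking (F : Set (E d)) ∧ nearPairs F ε = maxPairs d n ε := by
  have h := Nat.sSup_mem (s := {k : ℕ | ∃ F : Finset (E d), F.card = n ∧
    IsPacking (F : Set (E d)) ∧ nearPairs F ε = k}) ?_ ?_
  · exact h
  · obtain ⟨F, hF1, hF2⟩ := exists_packing_card hd n
    exact ⟨_, F, hF1, hF2, rfl⟩
  · refine ⟨n * n, ?_⟩
    rintro k ⟨F, hF1, _, rfl⟩
    rw [← hF1]
    exact nearPairs_le_sq F ε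

lemma le_maxPairs {n : ℕ} {ε : ℝ} {F : Finset (E d)} (hFc : F.card = n)
    (hF : IsPacking (F : Set (E d))) : nearPairs F ε ≤ maxPairs d n ε := by
  apply le_csSup
  · refine ⟨n * n, ?_⟩
    rintro k ⟨F, hF1, _, rfl⟩
    rw [← hF1]
    exact nearPairs_le_sq F ε
  · exact ⟨F, hFc, hF, rfl⟩

end Pool.Agent.W_28d874_h30
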