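import Pool.Agent.W_28d874_h30.Exhaust

namespace Pool.Agent.W_28d874_h30

open Metric Set Filter Topology

variable {d : ℕ}

/-- Inside the ball of radius `R` about `x` the sets `A` and `B` are `η`-close: every point of one
of them is within `η` of a point of the other. -/
def CloseOn (A B : Set (E d)) (x : E d) (R η : ℝ) : Prop :=
  (∀ a ∈ A, dist a x ≤ R → ∃ b ∈ B, dist a b < η) ∧ ∀ b ∈ B, dist b x ≤ R → ∃ a ∈ A, dist a b < η

/-- limit of full packings is maximal -/
lemma limSet_maximal {Q : ℕ → Set (E d)} (hQ : ∀ k, IsPacking (Q k)) (h0 : ∀ k, (0 : E d) ∈ Q k)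
    (hN : ∀ k, ∀ y ∈ Q k, dist y 0 ≤ k → HasNear (Q k) y (1 / ((k : ℝ) + 1)) (newton d)) :
    IsMaximal (limSet Q) := by
  have hlp : IsPacking (limSet Q) := limSet_packing hQ
  refine ⟨⟨0, fun _ => 0, h0, tendsto_const_nhds⟩, hlp, ?_⟩
  rintro z ⟨y, hy, hyz⟩
  have hz : z ∈ limSet Q := ⟨y, hy, hyz⟩
  have hfull : HasNear (limSet Q) z 0 (newton d) := by
    refine hasNear_limSet hQ hy hyz ?_
    have hk : ∀ᶠ k : ℕ in (hyperfilter ℕ : Filter ℕ), ‖z‖ + 1 ≤ (k : ℝ) := by
      have : ∀ᶠ k : ℕ in atTop, ‖z‖ + 1 ≤ (k : ℝ) :=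
        tendsto_natCast_atTop_atTop.eventually_ge_atTop _
      rw [← Nat.cofinite_eq_atTop] at this
      exact hyperfilter_le_cofinite this
    filter_upwards [hk, hyz.eventually (ball_mem_nhds z one_pos)] with k hk1 hk2
    apply hN k (y k) (hy k)
    have hk3 : dist (y k) z < 1 := hk2
    rw [dist_eq_norm] at hk3
    have := norm_le_norm_add_norm_sub' (y k) z
    rw [dist_zero_right]
    linarith
  have heq : {y ∈ limSet Q | Touch z y} = {y ∈ limSet Q | y ≠ z ∧ dist z y ≤ 2 + 0} := by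
    ext u
    simp only [mem_ofPred_eq, touch_iff, add_zero, ne_comm]
  rw [heq]
  apply le_antisymm
  · exact (hasNear_of_ncard hlp le_rfl).le_newton hlp hz
  · exact hfull.le_ncard hlp

/-- The sets converge locally to their limit set. -/
lemma limSet_close {Q : ℕ → Set (E d)} (hQ : ∀ k, IsPacking (Q k)) (h0 : ∀ k, (0 : E d) ∈ Q k)
    {R η : ℝ} (hη : 0 < η) :
    ∀ᶠ k in (hyperfilter ℕ : Filter ℕ), CloseOn (Q k) (limSet Q) 0 R η := by
  classical
  have h1 : ∀ᶠ k in (hyperfilter ℕ : Filter ℕ), ∀ b ∈ limSet Q, dist b 0 ≤ R →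
      ∃ a ∈ Q k, dist a b < η := by
    have hfin := finite_of_bounded (limSet_packing hQ) (0 : E d) R
    have h2 : ∀ b ∈ {b ∈ limSet Q | dist b 0 ≤ R}, ∀ᶠ k in (hyperfilter ℕ : Filter ℕ),
        ∃ a ∈ Q k, dist a b < η := by
      rintro b ⟨⟨y, hy, hyb⟩, _⟩
      filter_upwards [hyb.eventually (ball_mem_nhds b hη)] with k hk
      exact ⟨y k, hy k, hk⟩
    have h3 := (Filter.eventually_all_finite hfin).2 h2
    filter_upwards [h3] with k hk b hb hbR
    exact hk b ⟨hb, hbR⟩
  have h4 : ∀ᶠ k in (hyperfilter ℕ : Filter ℕ), ∀ a ∈ Q k, dist a 0 ≤ R →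
      ∃ b ∈ limSet Q, dist a b < η := by
    by_contra hcon
    have hcon2 := Ultrafilter.eventually_not.2 hcon
    have hch : ∀ k, ∃ a ∈ Q k, (¬ (∀ a ∈ Q k, dist a 0 ≤ R → ∃ b ∈ limSet Q, dist a b < η)) →
        dist a 0 ≤ R ∧ ∀ b ∈ limSet Q, η ≤ dist a b := by
      intro k
      by_cases hk : ∀ a ∈ Q k, dist a 0 ≤ R → ∃ b ∈ limSet Q, dist a b < η
      · exact ⟨0, h0 k, fun h => absurd hk h⟩
      · push Not at hk
        obtain ⟨a, ha, haR, hab⟩ := hk
        exact ⟨a, ha, fun _ => ⟨haR, hab⟩⟩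
    choose a haQ ha using hch
    have hc : IsCompact (closedBall (0 : E d) R) := isCompact_closedBall 0 R
    have hle : (((hyperfilter ℕ).map a : Ultrafilter (E d)) : Filter (E d)) ≤
        𝓟 (closedBall 0 R) := by
      rw [le_principal_iff]
      show ∀ᶠ k in (hyperfilter ℕ : Filter ℕ), a k ∈ closedBall 0 R
      filter_upwards [hcon2] with k hk
      exact (ha k hk).1
    obtain ⟨w, _, hw⟩ := hc.ultrafilter_le_nhds _ hle
    have hw' : Tendsto a (hyperfilter ℕ : Filter ℕ) (𝓝 w) := hw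
    have hwL : w ∈ limSet Q := ⟨a, haQ, hw'⟩
    have hev : ∀ᶠ k in (hyperfilter ℕ : Filter ℕ), False := by
      filter_upwards [hcon2, hw'.eventually (ball_mem_nhds w hη)] with k hk hk2
      have hk3 : dist (a k) w < η := hk2
      linarith [(ha k hk).2 w hwL]
    exact hev.exists.elim fun _ h => h
  filter_upwards [h1, h4] with k hk1 hk2
  exact ⟨hk2, hk1⟩

/-- A packing all of whose balls near `x` are nearly full is close to a maximal packing. -/
lemma exists_close {R η : ℝ} (hη : 0 < η) : ∃ k : ℕ, ∀ P : Set (E d), IsPacking P → ∀ x ∈ P,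
    (∀ y ∈ P, dist y x ≤ k → HasNear P y (1 / ((k : ℝ) + 1)) (newton d)) →
      ∃ M : Set (E d), IsMaximal M ∧ x ∈ M ∧ CloseOn P M x R η := by
  by_contra hcon
  push Not at hcon
  choose P hP x hx hN hM using hcon
  set Q : ℕ → Set (E d) := fun k => (fun z => z - x k) '' P k with hQ
  have hQp : ∀ k, IsPacking (Q k) := fun k => isPacking_translate (hP k) (x k)
  have h0 : ∀ k, (0 : E d) ∈ Q k := fun k => ⟨x k, hx k, sub_self _⟩
  have hmax : IsMaximal (limSet Q) := by
    apply limSet_maximal hQp h0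
    rintro k _ ⟨u, hu, rfl⟩ huk
    have h1 : dist u (x k) ≤ k := by
      have h2 : dist (u - x k) 0 ≤ k := huk
      rwa [dist_zero_right, ← dist_eq_norm] at h2
    exact (hN k u hu h1).translate (x k)
  have hcl := limSet_close (R := R) hQp h0 hη
  obtain ⟨k, hk⟩ := hcl.exists
  refine hM k ((fun z => z + x k) '' limSet Q) ?_ ?_ ?_
  · refine ⟨hmax.1.image _, ?_, ?_⟩
    · have h1 := isPacking_translate hmax.2.1 (-x k)
      simpa using h1
    · rintro _ ⟨z, hz, rfl⟩
      rw [← hmax.2.2 z hz]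
      have h3 : {y ∈ (fun z => z + x k) '' limSet Q | Touch (z + x k) y} =
          (fun z => z + x k) '' {y ∈ limSet Q | Touch z y} := by
        ext u
        constructor
        · rintro ⟨⟨v, hv, rfl⟩, hu⟩
          refine ⟨v, ⟨hv, ?_⟩, rfl⟩
          rw [touch_iff] at hu ⊢
          refine ⟨fun h => hu.1 (by rw [h]), ?_⟩
          simpa using hu.2
        · rintro ⟨v, ⟨hv, hzv⟩, rfl⟩
          refine ⟨⟨v, hv, rfl⟩, ?_⟩
          rw [touch_iff] at hzv ⊢
          refine ⟨fun h => hzv.1 (add_left_injective _ h), ?_⟩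
          simpa using hzv.2
      show {y ∈ (fun z => z + x k) '' limSet Q | Touch (z + x k) y}.ncard = _
      rw [h3, Set.ncard_image_of_injective _ (add_left_injective _)]
  · exact ⟨0, ⟨fun _ => 0, h0, tendsto_const_nhds⟩, zero_add _⟩
  · constructor
    · intro a ha haR
      obtain ⟨b, hb, hab⟩ := hk.1 (a - x k) ⟨a, ha, rfl⟩ (by
        rwa [dist_zero_right, ← dist_eq_norm])
      refine ⟨b + x k, ⟨b, hb, rfl⟩, ?_⟩
      have h1 : dist (a - x k) b = dist a (b + x k) := by
        rw [dist_eq_norm, dist_eq_norm]; congr 1; abel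
      rwa [← h1]
    · rintro _ ⟨b, hb, rfl⟩ hbR
      obtain ⟨_, ⟨a, ha, rfl⟩, hab⟩ := hk.2 b hb (by
        have h2 : dist (b + x k) (x k) ≤ R := hbR
        rw [dist_eq_norm] at h2
        rw [dist_zero_right]
        simpa using h2)
      refine ⟨a, ha, ?_⟩
      have h1 : dist (a - x k) b = dist a (b + x k) := by
        rw [dist_eq_norm, dist_eq_norm]; congr 1; abel
      show dist a (b + x k) < η
      rw [← h1]
      exact hab

/-- Stability. -/
lemma stability {R η : ℝ} (hη : 0 < η) : ∃ ε : ℝ, 0 < ε ∧ ∃ δ : ℝ, 0 < δ ∧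
    ∀ F : Finset (E d), IsPacking (F : Set (E d)) →
      ((newton d : ℝ) - δ) * F.card ≤ (nearPairs F ε : ℝ) →
        ({x ∈ (F : Set (E d)) | ¬ ∃ M : Set (E d), IsMaximal M ∧ x ∈ M ∧
          CloseOn (F : Set (E d)) M x R η}.ncard : ℝ) ≤ η * F.card := by
  classical
  obtain ⟨k1, hk1⟩ := exists_eps_le_newton (d := d)
  obtain ⟨k2, hk2⟩ := exists_close (d := d) (R := R) hη
  set ε : ℝ := min (1 / ((k1 : ℝ) + 1)) (1 / ((k2 : ℝ) + 1)) with hε
  have hεpos : 0 < ε := lt_min (by positivity) (by positivity)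
  set M : ℝ := ((k2 : ℝ) + 1) ^ d with hM
  have hMpos : 0 < M := by positivity
  refine ⟨ε, hεpos, η / M, by positivity, fun F hF hFn => ?_⟩
  have hupper : ∀ x ∈ F, ndeg F ε x ≤ newton d := by
    intro x hx
    by_contra hcon
    push Not at hcon
    rw [ndeg_eq_ncard] at hcon
    exact hk1 (F : Set (E d)) hF x (Finset.mem_coe.2 hx)
      ((hasNear_of_ncard hF hcon).mono (min_le_left _ _) le_rfl)
  set D := F.filter (fun y => ndeg F ε y < newton d) with hD
  set B := F.filter (fun x => ¬ ∃ M : Set (E d), IsMaximal M ∧ x ∈ M ∧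
          CloseOn (F : Set (E d)) M x R η) with hB
  have hBc : {x ∈ (F : Set (E d)) | ¬ ∃ M : Set (E d), IsMaximal M ∧ x ∈ M ∧
          CloseOn (F : Set (E d)) M x R η}.ncard = B.card := by
    rw [← Set.ncard_coe_finset]
    congr 1
    ext z
    simp [hB]
  rw [hBc]
  have hdef : ∀ x ∈ B, ∃ y ∈ D, dist y x ≤ k2 := by
    intro x hx
    rw [hB, Finset.mem_filter] at hx
    by_contra hcon
    push Not at hcon
    apply hx.2
    apply hk2 (F : Set (E d)) hF x (Finset.mem_coe.2 hx.1)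
    intro y hy hyx
    have hyD : y ∉ D := fun h => absurd hyx (not_le.2 (hcon y h))
    rw [hD, Finset.mem_filter, not_and, not_lt, ndeg_eq_ncard] at hyD
    exact (hasNear_of_ncard hF (hyD (Finset.mem_coe.1 hy))).mono (min_le_right _ _) le_rfl
  have hcard : (B.card : ℝ) ≤ D.card * M := by
    have h1 : B ⊆ D.biUnion fun y => F.filter fun x => dist x y ≤ k2 := by
      intro x hx
      obtain ⟨y, hy, hyx⟩ := hdef x hx
      rw [Finset.mem_biUnion]
      exact ⟨y, hy, Finset.mem_filter.2 ⟨(Finset.mem_filter.1 hx).1, by rwa [dist_comm]⟩⟩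
    have h2 : B.card ≤ ∑ y ∈ D, (F.filter fun x => dist x y ≤ k2).card :=
      (Finset.card_le_card h1).trans Finset.card_biUnion_le
    have h3 : ∀ y ∈ D, ((F.filter fun x => dist x y ≤ k2).card : ℝ) ≤ M := by
      intro y _
      refine card_le_pow (hF.mono ?_) (p := y) (Nat.cast_nonneg k2) ?_
      · intro x hx
        exact Finset.mem_coe.2 (Finset.mem_filter.1 (Finset.mem_coe.1 hx)).1
      · intro x hx
        exact (Finset.mem_filter.1 hx).2
    calc (B.card : ℝ) ≤ ((∑ y ∈ D, (F.filter fun x => dist x y ≤ k2).card : ℕ) : ℝ) := by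
          exact_mod_cast h2
      _ = ∑ y ∈ D, ((F.filter fun x => dist x y ≤ k2).card : ℝ) := by push_cast; rfl
      _ ≤ ∑ _y ∈ D, M := Finset.sum_le_sum h3
      _ = D.card * M := by rw [Finset.sum_const, nsmul_eq_mul]
  have hsum : (nearPairs F ε : ℝ) ≤ (newton d : ℝ) * F.card - D.card := by
    rw [nearPairs_eq_sum]
    have h1 : ∀ x ∈ F, (ndeg F ε x : ℝ) + (if ndeg F ε x < newton d then 1 else 0) ≤ newton d := by
      intro x hx
      split_ifs with h
      · exact_mod_cast h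
      · rw [add_zero]; exact_mod_cast hupper x hx
    have h2 := Finset.sum_le_sum h1
    rw [Finset.sum_add_distrib, Finset.sum_const, nsmul_eq_mul] at h2
    have h3 : ∑ x ∈ F, (if ndeg F ε x < newton d then (1 : ℝ) else 0) = D.card := by
      rw [hD, Finset.card_filter]
      push_cast
      rfl
    rw [h3] at h2
    push_cast
    linarith
  have h5 : (D.card : ℝ) ≤ η / M * F.card := by linarith
  calc (B.card : ℝ) ≤ D.card * M := hcard
    _ ≤ (η / M * F.card) * M := mul_le_mul_of_nonneg_right h5 hMpos.le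
    _ = η * F.card := by field_simp

end Pool.Agent.W_28d874_h30
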