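import Pool.Agent.W_28d874_h30.Compact

namespace Pool.Agent.W_28d874_h30

open Metric Set Filter Topology

variable {d : ℕ}

/-- near degree inside a finite family -/
noncomputable def ndeg (F : Finset (E d)) (ε : ℝ) (x : E d) : ℕ := by
  classical exact (F.filter fun y => y ≠ x ∧ dist x y ≤ 2 + ε).card

lemma ndeg_eq_ncard (F : Finset (E d)) (ε : ℝ) (x : E d) :
    ndeg F ε x = {z ∈ (F : Set (E d)) | z ≠ x ∧ dist x z ≤ 2 + ε}.ncard := by
  classical
  rw [ndeg, ← Set.ncard_coe_finset]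
  congr 1
  ext z
  simp

lemma nearPairs_eq_sum (F : Finset (E d)) (ε : ℝ) : nearPairs F ε = ∑ x ∈ F, ndeg F ε x := by
  classical
  have h0 : F.offDiag = (F ×ˢ F).filter fun p => p.1 ≠ p.2 := by
    ext p
    simp [Finset.mem_offDiag, and_assoc]
  rw [nearPairs, Finset.card_filter, h0, Finset.sum_filter, Finset.sum_product]
  refine Finset.sum_congr rfl fun x hx => ?_
  rw [ndeg, Finset.card_filter]
  refine Finset.sum_congr rfl fun y hy => ?_
  by_cases h1 : x = y
  · subst h1; simp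
  · have h2 : y ≠ x := fun h => h1 h.symm
    simp [h1, h2]

/-- Robust gap: in the absence of maximal packings. -/
lemma gap (hno : ¬ ∃ P : Set (E d), IsMaximal P) : ∃ ε : ℝ, 0 < ε ∧ ∃ δ : ℝ, 0 < δ ∧
    ∀ F : Finset (E d), IsPacking (F : Set (E d)) →
      (nearPairs F ε : ℝ) ≤ ((newton d : ℝ) - δ) * F.card := by
  classical
  obtain ⟨k1, hk1⟩ := exists_eps_le_newton (d := d)
  obtain ⟨k2, hk2⟩ := exists_deficient hno
  set ε : ℝ := min (1 / ((k1 : ℝ) + 1)) (1 / ((k2 : ℝ) + 1)) with hε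
  have hεpos : 0 < ε := lt_min (by positivity) (by positivity)
  set M : ℝ := ((k2 : ℝ) + 1) ^ d with hM
  have hMpos : 0 < M := by positivity
  refine ⟨ε, hεpos, 1 / M, by positivity, fun F hF => ?_⟩
  have hupper : ∀ x ∈ F, ndeg F ε x ≤ newton d := by
    intro x hx
    by_contra hcon
    push Not at hcon
    rw [ndeg_eq_ncard] at hcon
    exact hk1 (F : Set (E d)) hF x (Finset.mem_coe.2 hx)
      ((hasNear_of_ncard hF hcon).mono (min_le_left _ _) le_rfl)
  set D := F.filter (fun y => ndeg F ε y < newton d) with hD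
  have hdef : ∀ x ∈ F, ∃ y ∈ D, dist y x ≤ k2 := by
    intro x hx
    obtain ⟨y, hy, hyx, hyn⟩ := hk2 (F : Set (E d)) hF x (Finset.mem_coe.2 hx)
    refine ⟨y, ?_, hyx⟩
    rw [hD, Finset.mem_filter]
    refine ⟨Finset.mem_coe.1 hy, ?_⟩
    by_contra hcon
    push Not at hcon
    rw [ndeg_eq_ncard] at hcon
    exact hyn ((hasNear_of_ncard hF hcon).mono (min_le_right _ _) le_rfl)
  have hcard : (F.card : ℝ) ≤ D.card * M := by
    have h1 : F ⊆ D.biUnion fun y => F.filter fun x => dist x y ≤ k2 := by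
      intro x hx
      obtain ⟨y, hy, hyx⟩ := hdef x hx
      rw [Finset.mem_biUnion]
      exact ⟨y, hy, Finset.mem_filter.2 ⟨hx, by rwa [dist_comm]⟩⟩
    have h2 : F.card ≤ ∑ y ∈ D, (F.filter fun x => dist x y ≤ k2).card :=
      (Finset.card_le_card h1).trans Finset.card_biUnion_le
    have h3 : ∀ y ∈ D, ((F.filter fun x => dist x y ≤ k2).card : ℝ) ≤ M := by
      intro y _
      refine card_le_pow (hF.mono ?_) (p := y) (Nat.cast_nonneg k2) ?_
      · intro x hx
        exact Finset.mem_coe.2 (Finset.mem_filter.1 (Finset.mem_coe.1 hx)).1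
      · intro x hx
        exact (Finset.mem_filter.1 hx).2
    calc (F.card : ℝ) ≤ ((∑ y ∈ D, (F.filter fun x => dist x y ≤ k2).card : ℕ) : ℝ) := by
          exact_mod_cast h2
      _ = ∑ y ∈ D, ((F.filter fun x => dist x y ≤ k2).card : ℝ) := by push_cast; rfl
      _ ≤ ∑ _y ∈ D, M := Finset.sum_le_sum h3
      _ = D.card * M := by rw [Finset.sum_const, nsmul_eq_mul]
  have hsum : (nearPairs F ε : ℝ) ≤ (newton d : ℝ) * F.card - D.card := by
    rw [nearPairs_eq_sum]
    have h1 : ∀ x ∈ F, (ndeg F ε x : ℝ) + (if ndeg F ε x < newton d then 1 else 0) ≤ newton d := by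
      intro x hx
      split_ifs with h
      · exact_mod_cast h
      · rw [add_zero]; exact_mod_cast hupper x hx
    have h2 := Finset.sum_le_sum h1
    rw [Finset.sum_add_distrib, Finset.sum_const, nsmul_eq_mul] at h2
    have h3 : ∑ x ∈ F, (if ndeg F ε x < newton d then (1 : ℝ) else 0) = D.card := by
      rw [hD, Finset.card_filter]
      push_cast
      rfl
    rw [h3] at h2
    push_cast
    linarith
  have h5 : (F.card : ℝ) * (1 / M) ≤ D.card := by
    rw [mul_one_div, div_le_iff₀ hMpos]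
    exact hcard
  nlinarith

end Pool.Agent.W_28d874_h30
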